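import Pool.Agent.V8H59.FS.Sec

/-!
Limits: strong convergence, weakly null kernel vectors, compactness.
-/

set_option autoImplicit false
open MeasureTheory Filter Topology Complex AddCircle
open scoped InnerProductSpace

namespace Pool.Agent.V8H59.FS

lemma P_tendsto (x : H2) : Tendsto (fun n => P n x) atTop (𝓝 x) := by
  have h := (lp.hasSum_single (p := 2) (by norm_num) x).tendsto_sum_nat
  have h2 := (tendsto_add_atTop_iff_nat 1).2 h
  refine h2.congr fun n => ?_
  rw [P_apply]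
  refine Finset.sum_congr rfl fun i _ => ?_
  ext j
  rw [lp.coeFn_smul, Pi.smul_apply, e_apply]
  by_cases hj : j = i
  · subst hj; simp
  · simp [hj]

lemma P_tendsto' {y : ℕ → H2} {x : H2} (h : Tendsto y atTop (𝓝 x)) :
    Tendsto (fun n => P n (y n)) atTop (𝓝 x) := by
  have h1 : Tendsto (fun n => P n (y n - x)) atTop (𝓝 0) := by
    rw [tendsto_zero_iff_norm_tendsto_zero]
    have h2 : Tendsto (fun n => ‖y n - x‖) atTop (𝓝 0) := tendsto_iff_norm_sub_tendsto_zero.1 h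
    exact squeeze_zero (fun n => norm_nonneg _) (fun n => norm_P n _) h2
  have h2 := h1.add (P_tendsto x)
  rw [zero_add] at h2
  refine h2.congr fun n => ?_
  rw [map_sub]
  abel

lemma E_tendsto {y : ℕ → H2} {x : H2} (h : Tendsto y atTop (𝓝 x)) :
    Tendsto (fun n => E n (y n)) atTop (𝓝 0) := by
  have h1 : ∀ n, E n (y n) = P n (y n) - P n (Ls (P n (P n (L (P n (y n)))))) := fun n => rfl
  have h2 := P_tendsto' h
  have h3 := P_tendsto' ((Ls.continuous.tendsto _).comp (P_tendsto' (P_tendsto'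
    ((L.continuous.tendsto _).comp h2))))
  have h4 := h2.sub h3
  rw [Ls_L, sub_self] at h4
  exact h4.congr fun n => (h1 n).symm

lemma D_tendsto {y : ℕ → H2} {x : H2} (h : Tendsto y atTop (𝓝 x)) :
    Tendsto (fun n => D n (y n)) atTop (𝓝 (x - L (Ls x))) := by
  have h1 : ∀ n, D n (y n) = P n (y n) - P n (L (P n (P n (Ls (P n (y n)))))) := fun n => rfl
  have h2 := P_tendsto' h
  have h3 := P_tendsto' ((L.continuous.tendsto _).comp (P_tendsto' (P_tendsto'
    ((Ls.continuous.tendsto _).comp h2))))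
  exact (h2.sub h3).congr fun n => (h1 n).symm

/-- strong limit of `D n * E n` -/
lemma DE_tendsto (x : H2) : Tendsto (fun n => (D n * E n) x) atTop (𝓝 0) := by
  have h := D_tendsto (E_tendsto (tendsto_const_nhds (x := x)))
  rw [map_zero, map_zero, sub_zero] at h
  exact h

/-- strong limit of `W n (D n * E n) W n` -/
lemma WDEW_tendsto (x : H2) : Tendsto (fun n => (W n * (D n * E n) * W n) x) atTop (𝓝 0) := by
  have h := E_tendsto (D_tendsto (tendsto_const_nhds (x := x)))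
  refine h.congr fun n => ?_
  have h1 : W n * (D n * E n) * W n = E n * D n := by
    have h2 : D n * E n = D n * (W n * W n) * E n := by rw [WW, DP]
    rw [h2]
    calc _ = (W n * D n * W n) * (W n * E n * W n) := by simp only [mul_assoc]
      _ = _ := by rw [WDW, WEW]
  rw [h1]
  rfl

lemma weak_null {x : ℕ → H2} (hb : ∀ m, ‖x m‖ ≤ 1) (hc : ∀ j, Tendsto (fun m => x m j) atTop (𝓝 0))
    (z : H2) : Tendsto (fun m => ⟪z, x m⟫_ℂ) atTop (𝓝 0) := by
  rw [Metric.tendsto_atTop]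
  intro ε hε
  have h1 := P_tendsto z
  rw [Metric.tendsto_atTop] at h1
  obtain ⟨N, hN⟩ := h1 (ε / 2) (by positivity)
  have h2 := hN N le_rfl
  rw [dist_eq_norm] at h2
  have h3 : Tendsto (fun m => ⟪P N z, x m⟫_ℂ) atTop (𝓝 0) := by
    have h4 : ∀ m, ⟪P N z, x m⟫_ℂ = ∑ i ∈ Finset.range (N + 1), (starRingEnd ℂ) (z i) * x m i := by
      intro m
      rw [P_apply, sum_inner]
      refine Finset.sum_congr rfl fun i _ => ?_
      rw [inner_smul_left, inner_e]
    simp_rw [h4]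
    rw [← Finset.sum_const_zero (s := Finset.range (N + 1)) (ι := ℕ) (M := ℂ)]
    refine tendsto_finsetSum _ fun i _ => ?_
    simpa using (hc i).const_mul ((starRingEnd ℂ) (z i))
  rw [Metric.tendsto_atTop] at h3
  obtain ⟨M, hM⟩ := h3 (ε / 2) (by positivity)
  refine ⟨M, fun m hm => ?_⟩
  have h5 := hM m hm
  rw [dist_zero_right] at h5 ⊢
  have h6 : ⟪z, x m⟫_ℂ = ⟪P N z, x m⟫_ℂ - ⟪P N z - z, x m⟫_ℂ := by
    rw [inner_sub_left]; ring
  rw [h6]
  have h7 : ‖⟪P N z - z, x m⟫_ℂ‖ ≤ ‖P N z - z‖ * 1 :=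
    (norm_inner_le_norm _ _).trans (mul_le_mul_of_nonneg_left (hb m) (norm_nonneg _))
  have h8 := norm_sub_le ⟪P N z, x m⟫_ℂ ⟪P N z - z, x m⟫_ℂ
  linarith

lemma compact_null {K : H2 →L[ℂ] H2} (hK : IsCompactOperator K) {x : ℕ → H2} (hb : ∀ m, ‖x m‖ ≤ 1)
    (hc : ∀ j, Tendsto (fun m => x m j) atTop (𝓝 0)) : Tendsto (fun m => K (x m)) atTop (𝓝 0) := by
  obtain ⟨S, hS, hKS⟩ := hK.image_closedBall_subset_compact (𝕜₁ := ℂ) (f := (K : H2 →ₗ[ℂ] H2)) 1
  have hmem : ∀ m, K (x m) ∈ S := fun m => hKS ⟨x m, by simpa using hb m, rfl⟩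
  apply tendsto_of_subseq_tendsto
  intro ns hns
  obtain ⟨y, -, φ, hφ, hy⟩ := hS.tendsto_subseq (fun m => hmem (ns m))
  refine ⟨φ, ?_⟩
  have hy0 : y = 0 := by
    apply ext_inner_left ℂ
    intro z
    rw [inner_zero_right]
    have h1 : Tendsto (fun m => ⟪z, K (x (ns (φ m)))⟫_ℂ) atTop (𝓝 ⟪z, y⟫_ℂ) :=
      Tendsto.inner tendsto_const_nhds hy
    have h2 : Tendsto (fun m => ⟪z, K (x (ns (φ m)))⟫_ℂ) atTop (𝓝 0) := by
      have h3 := (weak_null hb hc (ContinuousLinearMap.adjoint K z)).comp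
        (hns.comp hφ.tendsto_atTop)
      refine h3.congr fun m => ?_
      simp only [Function.comp_apply]
      rw [ContinuousLinearMap.adjoint_inner_left]
    exact tendsto_nhds_unique h1 h2
  rw [hy0] at hy
  exact hy

/-! ### the kernel vectors -/

/-- radius -/
noncomputable def ra (m : ℕ) : ℝ := (m : ℝ) / (m + 2)

lemma ra0 (m : ℕ) : 0 ≤ ra m := by unfold ra; positivity

lemma ra1 (m : ℕ) : ra m < 1 := by
  unfold ra
  rw [div_lt_one (by positivity)]
  linarith

/-- normalized kernel vectors -/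
noncomputable def kk (m : ℕ) : H2 := kv (ra m) (ra0 m) (ra1 m)

lemma norm_kk (m : ℕ) : ‖kk m‖ = 1 := norm_kv _ _

lemma kk_apply (m j : ℕ) : kk m j = ((Real.sqrt (1 - ra m ^ 2) * ra m ^ j : ℝ) : ℂ) := rfl

lemma ra_tendsto : Tendsto ra atTop (𝓝 1) := by
  have h : ra = fun m : ℕ => 1 - 2 / ((m : ℝ) + 2) := by
    funext m
    unfold ra
    field_simp
    ring
  rw [h]
  have h1 : Tendsto (fun m : ℕ => 2 / ((m : ℝ) + 2)) atTop (𝓝 0) := by
    apply Tendsto.div_atTop tendsto_const_nhds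
    exact tendsto_atTop_add_const_right _ _ tendsto_natCast_atTop_atTop
  have h2 := h1.const_sub 1
  rw [sub_zero] at h2
  exact h2

lemma sqrt_tendsto : Tendsto (fun m => Real.sqrt (1 - ra m ^ 2)) atTop (𝓝 0) := by
  have h1 : Tendsto (fun m => 1 - ra m ^ 2) atTop (𝓝 0) := by
    have := (ra_tendsto.pow 2).const_sub 1
    simpa using this
  have h2 := (Real.continuous_sqrt.tendsto 0).comp h1
  rw [Real.sqrt_zero] at h2
  exact h2

lemma norm_kk_apply_le (m j : ℕ) : ‖kk m j‖ ≤ Real.sqrt (1 - ra m ^ 2) := by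
  rw [kk_apply, norm_real, Real.norm_eq_abs, abs_mul, abs_of_nonneg (Real.sqrt_nonneg _),
    abs_of_nonneg (pow_nonneg (ra0 m) j)]
  exact mul_le_of_le_one_right (Real.sqrt_nonneg _) (pow_le_one₀ (ra0 m) (ra1 m).le)

lemma Pkk_null (j : ℕ) : Tendsto (fun m => (P (m + 1) (kk m)) j) atTop (𝓝 0) := by
  apply squeeze_zero_norm _ sqrt_tendsto
  intro m
  rw [P_coord]
  split_ifs
  · exact norm_kk_apply_le m j
  · simp

lemma Wkk_null (j : ℕ) : Tendsto (fun m => (W (m + 1) (kk m)) j) atTop (𝓝 0) := by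
  apply squeeze_zero_norm _ sqrt_tendsto
  intro m
  rw [W_coord]
  split_ifs
  · exact norm_kk_apply_le m _
  · simp

lemma inner_W_kk (m : ℕ) : ⟪W (m + 1) (kk m), kk m⟫_ℂ
    = (((1 - ra m ^ 2) * (m + 2) * ra m ^ (m + 1) : ℝ) : ℂ) := by
  rw [lp.inner_eq_tsum, tsum_eq_sum (s := Finset.range (m + 2))]
  · have h : ∀ j ∈ Finset.range (m + 2), ⟪(W (m + 1) (kk m)) j, kk m j⟫_ℂ
        = (((1 - ra m ^ 2) * ra m ^ (m + 1) : ℝ) : ℂ) := by
      intro j hj
      rw [Finset.mem_range] at hj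
      rw [W_coord, if_pos (by omega), RCLike.inner_apply, kk_apply, kk_apply, conj_ofReal,
        ← ofReal_mul]
      congr 1
      have h1 : ra m ^ (m + 1) = ra m ^ j * ra m ^ (m + 1 - j) := by
        rw [← pow_add]; congr 1; omega
      have h2 : Real.sqrt (1 - ra m ^ 2) * Real.sqrt (1 - ra m ^ 2) = 1 - ra m ^ 2 :=
        Real.mul_self_sqrt (sq_pos' (ra0 m) (ra1 m)).le
      calc _ = (Real.sqrt (1 - ra m ^ 2) * Real.sqrt (1 - ra m ^ 2)) *
            (ra m ^ j * ra m ^ (m + 1 - j)) := by ring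
        _ = _ := by rw [h2, h1]
    rw [Finset.sum_congr rfl h, Finset.sum_const, Finset.card_range]
    push_cast
    simp only [nsmul_eq_mul]
    push_cast
    ring
  · intro j hj
    rw [Finset.mem_range] at hj
    rw [W_coord, if_neg (by omega), inner_zero_left]

lemma norm_tail (m : ℕ) : ‖kk m - P (m + 1) (kk m)‖ = ra m ^ (m + 2) := by
  have h : ‖kk m - P (m + 1) (kk m)‖ ^ 2 = (ra m ^ (m + 2)) ^ 2 := by
    rw [norm_sq_eq]
    have h1 : ∀ j, (kk m - P (m + 1) (kk m) : H2) j = if j ≤ m + 1 then 0 else kk m j := by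
      intro j
      rw [lp.coeFn_sub, Pi.sub_apply, P_coord]
      split_ifs <;> simp
    have h2 : HasSum (fun j => ‖(kk m - P (m + 1) (kk m) : H2) j‖ ^ 2) ((ra m ^ (m + 2)) ^ 2) := by
      rw [← hasSum_nat_add_iff' (m + 2)]
      have h3 : ∑ j ∈ Finset.range (m + 2), ‖(kk m - P (m + 1) (kk m) : H2) j‖ ^ 2 = 0 := by
        apply Finset.sum_eq_zero
        intro j hj
        rw [Finset.mem_range] at hj
        rw [h1, if_pos (by omega)]
        simp
      rw [h3, sub_zero]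
      have h4 := (hasSum_geometric_of_lt_one (r := ra m ^ 2) (by positivity)
        (by nlinarith [ra0 m, ra1 m])).mul_left ((1 - ra m ^ 2) * (ra m ^ (m + 2)) ^ 2)
      have h5 : (1 - ra m ^ 2) * (ra m ^ (m + 2)) ^ 2 * (1 - ra m ^ 2)⁻¹ = (ra m ^ (m + 2)) ^ 2 := by
        field_simp [(sq_pos' (ra0 m) (ra1 m)).ne']
      rw [h5] at h4
      refine h4.congr_fun fun j => ?_
      rw [h1, if_neg (by omega), kk_apply, norm_real, Real.norm_eq_abs, sq_abs, mul_pow,
        Real.sq_sqrt (sq_pos' (ra0 m) (ra1 m)).le]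
      ring
    exact h2.tsum_eq
  exact (pow_left_inj₀ (norm_nonneg _) (pow_nonneg (ra0 m) _) two_ne_zero).1 h

lemma norm_th_ra (m : ℕ) : ‖th (ra m : ℂ)‖ = Real.exp (-((m : ℝ) + 1)) := by
  rw [norm_th_real]
  congr 2
  unfold ra
  field_simp
  ring

/-- `A n = D n E n` does not tend to zero on the vectors `W n k` -/
lemma not_null : ¬ Tendsto (fun m => (D (m + 1) * E (m + 1)) (W (m + 1) (kk m))) atTop (𝓝 0) := by
  intro hcon
  have hcon' := tendsto_zero_iff_norm_tendsto_zero.1 hcon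
  have hR : Tendsto (fun m => ra m ^ (m + 2)) atTop (𝓝 (Real.exp (-2))) := by
    have h1 := (tendsto_add_atTop_iff_nat 2).2 (Real.tendsto_one_add_div_pow_exp (-2))
    refine h1.congr fun m => ?_
    congr 1
    unfold ra
    push_cast
    field_simp
    ring
  have hε : Tendsto (fun m : ℕ => Real.exp (-((m : ℝ) + 1))) atTop (𝓝 0) := by
    apply Real.tendsto_exp_neg_atTop_nhds_zero.comp
    exact tendsto_atTop_add_const_right _ _ tendsto_natCast_atTop_atTop
  have hq : Tendsto (fun m : ℕ => (4 * (m : ℝ) + 4) / (m + 2)) atTop (𝓝 4) := by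
    have h : (fun m : ℕ => (4 * (m : ℝ) + 4) / (m + 2)) = fun m : ℕ => 4 - 4 / ((m : ℝ) + 2) := by
      funext m
      field_simp
      ring
    rw [h]
    have h1 : Tendsto (fun m : ℕ => 4 / ((m : ℝ) + 2)) atTop (𝓝 0) := by
      apply Tendsto.div_atTop tendsto_const_nhds
      exact tendsto_atTop_add_const_right _ _ tendsto_natCast_atTop_atTop
    have h2 := h1.const_sub 4
    rw [sub_zero] at h2
    exact h2
  have hg : Tendsto (fun m : ℕ => (4 * (m : ℝ) + 4) / (m + 2) * ra m ^ (m + 2)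
      - 2 * (Real.exp (-((m : ℝ) + 1)) + ra m ^ (m + 2))
      - (Real.exp (-((m : ℝ) + 1)) + ra m ^ (m + 2)) ^ 2) atTop
      (𝓝 (4 * Real.exp (-2) - 2 * (0 + Real.exp (-2)) - (0 + Real.exp (-2)) ^ 2)) :=
    ((hq.mul hR).sub ((hε.add hR).const_mul 2)).sub ((hε.add hR).pow 2)
  have hle : ∀ m : ℕ, (4 * (m : ℝ) + 4) / (m + 2) * ra m ^ (m + 2)
      - 2 * (Real.exp (-((m : ℝ) + 1)) + ra m ^ (m + 2))
      - (Real.exp (-((m : ℝ) + 1)) + ra m ^ (m + 2)) ^ 2
      ≤ ‖(D (m + 1) * E (m + 1)) (W (m + 1) (kk m))‖ := by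
    intro m
    have h := lower (m + 1) (kk m) (norm_kk m) (th (ra m : ℂ)) (Ls_kv _ _)
    rw [norm_tail, norm_th_ra, inner_W_kk, norm_real, Real.norm_eq_abs] at h
    refine le_trans ?_ h
    gcongr
    rw [abs_of_nonneg (by
      have := (sq_pos' (ra0 m) (ra1 m)).le
      have := ra0 m
      positivity)]
    have h1 : (1 - ra m ^ 2) * ((m : ℝ) + 2) = (4 * (m : ℝ) + 4) / (m + 2) := by
      unfold ra
      field_simp
      ring
    rw [h1]
    apply mul_le_mul_of_nonneg_left _ (by positivity)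
    exact pow_le_pow_of_le_one (ra0 m) (ra1 m).le (by omega)
  have hfin := le_of_tendsto_of_tendsto' hg hcon' hle
  have he : Real.exp (-2) < 1 := by
    rw [Real.exp_lt_one_iff]; norm_num
  have he0 := Real.exp_pos (-2)
  nlinarith

end Pool.Agent.V8H59.FS
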