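import Pool.Agent.V8H59.FS.Sym

/-!
Operators on `ℓ²`: the Toeplitz isometry with the inner symbol, the sections `P n` and the
reversals `W n`.
-/

set_option autoImplicit false
open MeasureTheory Filter Topology Complex AddCircle
open scoped InnerProductSpace

namespace Pool.Agent.V8H59.FS

/-- square summable sequences -/
abbrev H2 : Type := lp (fun _ : ℕ => ℂ) 2

/-- unit vectors -/
noncomputable abbrev e (k : ℕ) : H2 := lp.single 2 k (1 : ℂ)

lemma inner_e (k : ℕ) (x : H2) : ⟪e k, x⟫_ℂ = x k := by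
  rw [lp.inner_single_left]; simp

lemma e_apply (k j : ℕ) : (e k : H2) j = if j = k then 1 else 0 := by
  by_cases h : j = k
  · subst h; simp
  · simp [h]

lemma vol_eq : (volume : Measure Ci) = haarAddCircle := by
  rw [volume_eq_smul_haarAddCircle]; simp

lemma memLp_mul (k : ℤ) : MemLp (fun t : Ci => sy t * (fourier k t : ℂ)) 2 haarAddCircle := by
  apply MemLp.of_bound (C := 1)
  · exact (measurable_sy.mul (fourier k : C(Ci, ℂ)).continuous.measurable).aestronglyMeasurable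
  · filter_upwards with t
    rw [norm_mul, norm_sy, norm_fourier, mul_one]

/-- `sy * fourier k` in `L²` -/
noncomputable def fL (k : ℤ) : Lp ℂ 2 (haarAddCircle : Measure Ci) := (memLp_mul k).toLp _

lemma coeff_mul (k m : ℤ) : fourierCoeff (fun t : Ci => sy t * (fourier k t : ℂ)) m
    = fourierCoeff sy (m - k) := by
  unfold fourierCoeff
  congr 1
  funext t
  have : (fourier (-(m - k)) t : ℂ) = fourier (-m) t * fourier k t := by
    rw [← fourier_add]
    congr 2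
    ring
  rw [this]
  simp only [smul_eq_mul]
  ring

lemma repr_fL (k m : ℤ) : fourierBasis.repr (fL k) m = fourierCoeff sy (m - k) := by
  rw [fourierBasis_repr, ← coeff_mul]
  exact congrFun (fourierCoeff_congr_ae (MemLp.coeFn_toLp _)) m

lemma inner_fL (j k : ℤ) : ⟪fL j, fL k⟫_ℂ = if j = k then 1 else 0 := by
  rw [L2.inner_def]
  have h1 : (fun t : Ci => ⟪(fL j : Ci → ℂ) t, (fL k : Ci → ℂ) t⟫_ℂ) =ᵐ[haarAddCircle]
      fun t => (fourier (-j) t : ℂ) • (fourier k t : ℂ) := by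
    filter_upwards [MemLp.coeFn_toLp (memLp_mul j), MemLp.coeFn_toLp (memLp_mul k)] with t h1 h2
    have h1' : (fL j : Ci → ℂ) t = sy t * (fourier j t : ℂ) := h1
    have h2' : (fL k : Ci → ℂ) t = sy t * (fourier k t : ℂ) := h2
    rw [h1', h2', RCLike.inner_apply, fourier_neg, smul_eq_mul, map_mul]
    have h3 : (starRingEnd ℂ) (sy t) * sy t = 1 := by
      rw [← normSq_eq_conj_mul_self, normSq_eq_norm_sq, norm_sy]; simp
    calc _ = ((starRingEnd ℂ) (sy t) * sy t) * ((starRingEnd ℂ) (fourier j t) * fourier k t) := by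
          ring
      _ = _ := by rw [h3, one_mul]
  rw [integral_congr_ae h1]
  change fourierCoeff (fourier k : Ci → ℂ) j = _
  rw [fourierCoeff_fourier]
  by_cases h : j = k
  · subst h; simp
  · rw [Pi.single_eq_of_ne h, if_neg h]

lemma vmem (k : ℕ) : Memℓp (fun m : ℕ => fourierCoeff sy ((m : ℤ) - k)) 2 := by
  have h := lp.memℓp (fourierBasis.repr (fL (k : ℤ)))
  rw [memℓp_gen_iff (by norm_num)] at h ⊢
  have h2 := h.comp_injective (Nat.cast_injective (R := ℤ))
  refine h2.congr fun m => ?_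
  simp only [Function.comp_apply]
  rw [repr_fL]

/-- the columns of the Toeplitz operator -/
noncomputable def v (k : ℕ) : H2 := ⟨fun m : ℕ => fourierCoeff sy ((m : ℤ) - k), vmem k⟩

lemma v_apply (k m : ℕ) : v k m = fourierCoeff sy ((m : ℤ) - k) := rfl

lemma inner_v (j k : ℕ) : ⟪v j, v k⟫_ℂ = if j = k then 1 else 0 := by
  have h := inner_fL (j : ℤ) (k : ℤ)
  rw [← LinearIsometryEquiv.inner_map_map fourierBasis.repr, lp.inner_eq_tsum] at h
  rw [lp.inner_eq_tsum]
  have h2 : (∑' m : ℤ, ⟪(fourierBasis.repr (fL (j : ℤ))) m, (fourierBasis.repr (fL (k : ℤ))) m⟫_ℂ)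
      = ∑' m : ℕ, ⟪v j m, v k m⟫_ℂ := by
    rw [← Function.Injective.tsum_eq (Nat.cast_injective (R := ℤ))]
    · congr 1
      funext m
      rw [repr_fL, repr_fL, v_apply, v_apply]
    · intro m hm
      by_contra hcon
      apply hm
      have h3 : ¬ (0 ≤ m - (j : ℤ)) := by
        intro h4
        apply hcon
        exact ⟨m.toNat, by omega⟩
      show ⟪_, _⟫_ℂ = _
      rw [repr_fL, fourierCoeff_sy, if_neg h3, inner_zero_left]
  rw [← h2, h]
  simp

lemma ortho_v : Orthonormal ℂ v := by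
  rw [orthonormal_iff_ite]
  exact inner_v

/-- the Toeplitz isometry -/
noncomputable def Li : H2 →ₗᵢ[ℂ] H2 := ortho_v.orthogonalFamily.linearIsometry

/-- the Toeplitz isometry -/
noncomputable def L : H2 →L[ℂ] H2 := Li.toContinuousLinearMap

/-- its adjoint -/
noncomputable def Ls : H2 →L[ℂ] H2 := ContinuousLinearMap.adjoint L

lemma L_e (k : ℕ) : L (e k) = v k := by
  show ortho_v.orthogonalFamily.linearIsometry _ = _
  rw [OrthogonalFamily.linearIsometry_apply_single]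
  simp

lemma norm_L (x : H2) : ‖L x‖ = ‖x‖ := Li.norm_map x

lemma inner_Ls (x y : H2) : ⟪x, Ls y⟫_ℂ = ⟪L x, y⟫_ℂ := ContinuousLinearMap.adjoint_inner_right L x y

lemma inner_Ls' (x y : H2) : ⟪Ls x, y⟫_ℂ = ⟪x, L y⟫_ℂ := ContinuousLinearMap.adjoint_inner_left L y x

lemma norm_Ls (x : H2) : ‖Ls x‖ ≤ ‖x‖ := by
  have h : ‖L‖ ≤ 1 := L.opNorm_le_bound zero_le_one fun x => by rw [norm_L, one_mul]
  have h2 : ‖Ls‖ ≤ 1 := by
    rw [Ls, LinearIsometryEquiv.norm_map]; exact h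
  calc ‖Ls x‖ ≤ ‖Ls‖ * ‖x‖ := Ls.le_opNorm x
    _ ≤ 1 * ‖x‖ := by gcongr
    _ = ‖x‖ := one_mul _

lemma Ls_L (x : H2) : Ls (L x) = x := by
  apply ext_inner_left ℂ
  intro y
  rw [inner_Ls]
  exact Li.inner_map_map y x

lemma L_apply (k j : ℕ) : (L (e k)) j = fourierCoeff sy ((j : ℤ) - k) := by
  rw [L_e, v_apply]

lemma Ls_apply (k j : ℕ) : (Ls (e k)) j = fourierCoeff (fun t : Ci => (starRingEnd ℂ) (sy t))
    ((j : ℤ) - k) := by
  rw [fourierCoeff_conj_sy, ← inner_e, inner_Ls, L_e, ← inner_conj_symm, inner_e, v_apply]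
  congr 2
  ring

lemma real_sy (k : ℤ) : (starRingEnd ℂ) (fourierCoeff sy k) = fourierCoeff sy k := by
  rw [fourierCoeff_sy]
  split_ifs
  · exact cc_real _
  · simp

lemma Ls_apply' (k j : ℕ) : (Ls (e k)) j = fourierCoeff sy ((k : ℤ) - j) := by
  rw [Ls_apply, fourierCoeff_conj_sy, real_sy]
  congr 1
  ring

/-- coordinate of an operator applied to a vector -/
lemma inner_apply (T : H2 →L[ℂ] H2) (x : H2) (j : ℕ) : (T x) j = ⟪ContinuousLinearMap.adjoint T (e j), x⟫_ℂ := by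
  rw [ContinuousLinearMap.adjoint_inner_left, inner_e]

lemma Ls_coord (x : H2) (j : ℕ) : (Ls x) j = ∑' m : ℕ, fourierCoeff sy ((m : ℤ) - j) * x m := by
  rw [← inner_e, inner_Ls, L_e, lp.inner_eq_tsum]
  congr 1
  funext m
  rw [RCLike.inner_apply, v_apply, real_sy, mul_comm]

/-! ### the kernel vectors -/

lemma kmem {r : ℝ} (h0 : 0 ≤ r) (h1 : r < 1) (s : ℝ) :
    Memℓp (fun j : ℕ => ((s * r ^ j : ℝ) : ℂ)) 2 := by
  rw [memℓp_gen_iff (by norm_num)]
  have h2 : Summable fun j : ℕ => s ^ 2 * (r ^ 2) ^ j :=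
    (summable_geometric_of_lt_one (by positivity) (by nlinarith)).mul_left _
  refine h2.congr fun j => ?_
  rw [norm_real, Real.norm_eq_abs]
  have : (2 : ENNReal).toReal = ((2 : ℕ) : ℝ) := by norm_num
  rw [this, Real.rpow_natCast, sq_abs]
  ring

/-- normalized kernel vector -/
noncomputable def kv (r : ℝ) (h0 : 0 ≤ r) (h1 : r < 1) : H2 :=
  ⟨fun j : ℕ => ((Real.sqrt (1 - r ^ 2) * r ^ j : ℝ) : ℂ), kmem h0 h1 _⟩

variable {r : ℝ} (h0 : 0 ≤ r) (h1 : r < 1)

lemma kv_apply (j : ℕ) : kv r h0 h1 j = ((Real.sqrt (1 - r ^ 2) * r ^ j : ℝ) : ℂ) := rfl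

lemma sq_pos' (h0 : 0 ≤ r) (h1 : r < 1) : 0 < 1 - r ^ 2 := by nlinarith

lemma norm_sq_eq (x : H2) : ‖x‖ ^ 2 = ∑' j, ‖x j‖ ^ 2 := by
  have h := lp.norm_rpow_eq_tsum (p := 2) (by norm_num) x
  have h2 : (2 : ENNReal).toReal = ((2 : ℕ) : ℝ) := by norm_num
  rw [h2] at h
  simp only [Real.rpow_natCast] at h
  exact h

lemma norm_kv : ‖kv r h0 h1‖ = 1 := by
  have h : ‖kv r h0 h1‖ ^ 2 = 1 := by
    rw [norm_sq_eq]
    have : (fun j => ‖kv r h0 h1 j‖ ^ 2) = fun j => (1 - r ^ 2) * (r ^ 2) ^ j := by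
      funext j
      rw [kv_apply, norm_real, Real.norm_eq_abs, sq_abs, mul_pow, Real.sq_sqrt (sq_pos' h0 h1).le]
      ring
    rw [this, tsum_mul_left, tsum_geometric_of_lt_one (by positivity) (by nlinarith)]
    exact mul_inv_cancel₀ (sq_pos' h0 h1).ne'
  have h2 := norm_nonneg (kv r h0 h1)
  nlinarith

lemma Ls_kv : Ls (kv r h0 h1) = th (r : ℂ) • kv r h0 h1 := by
  ext j
  rw [Ls_coord, lp.coeFn_smul, Pi.smul_apply, smul_eq_mul]
  have hr : ‖(r : ℂ)‖ < 1 := by
    rw [norm_real, Real.norm_eq_abs, abs_of_nonneg h0]; exact h1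
  have h := hasSum_cc hr
  have h2 : HasSum (fun m : ℕ => fourierCoeff sy (((m + j : ℕ) : ℤ) - j) * kv r h0 h1 (m + j))
      (th (r : ℂ) * kv r h0 h1 j) := by
    refine (h.mul_right (kv r h0 h1 j)).congr_fun fun m => ?_
    rw [kv_apply, kv_apply, fourierCoeff_sy, if_pos (by omega)]
    have : (((m + j : ℕ) : ℤ) - (j : ℤ)).toNat = m := by omega
    rw [this]
    push_cast
    ring
  have h3 : HasSum (fun m : ℕ => fourierCoeff sy ((m : ℤ) - j) * kv r h0 h1 m)
      (th (r : ℂ) * kv r h0 h1 j) := by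
    rw [← hasSum_nat_add_iff' j]
    have h4 : ∑ m ∈ Finset.range j, fourierCoeff sy ((m : ℤ) - j) * kv r h0 h1 m = 0 := by
      apply Finset.sum_eq_zero
      intro m hm
      rw [Finset.mem_range] at hm
      rw [fourierCoeff_sy, if_neg (by omega), zero_mul]
    rw [h4, sub_zero]
    exact h2
  exact h3.tsum_eq

lemma norm_th_real (r : ℝ) : ‖th (r : ℂ)‖ = Real.exp (-((1 + r) / (1 - r))) := by
  rw [norm_th]
  congr 2
  have : ((1 : ℂ) + r) / (1 - r) = (((1 + r) / (1 - r) : ℝ) : ℂ) := by push_cast; ring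
  rw [this, ofReal_re]

end Pool.Agent.V8H59.FS
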