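import Pool.Agent.V8H59.FS.Ops

/-!
The sections `P n` and the reversals `W n`, and the lower bound.
-/

set_option autoImplicit false
open MeasureTheory Filter Topology Complex AddCircle
open scoped InnerProductSpace

namespace Pool.Agent.V8H59.FS

/-- the projection onto the first coordinates -/
noncomputable def P (n : ℕ) : H2 →L[ℂ] H2 :=
  ∑ i ∈ Finset.range (n + 1), (innerSL ℂ (e i)).smulRight (e i)

/-- the reversal of the first coordinates -/
noncomputable def W (n : ℕ) : H2 →L[ℂ] H2 :=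
  ∑ i ∈ Finset.range (n + 1), (innerSL ℂ (e (n - i))).smulRight (e i)

lemma sum_coord (s : Finset ℕ) (f : ℕ → H2) (j : ℕ) : (∑ i ∈ s, f i : H2) j = ∑ i ∈ s, f i j := by
  rw [lp.coeFn_sum, Finset.sum_apply]

lemma P_apply (n : ℕ) (x : H2) : P n x = ∑ i ∈ Finset.range (n + 1), x i • e i := by
  rw [P, _root_.sum_apply]
  refine Finset.sum_congr rfl fun i _ => ?_
  rw [ContinuousLinearMap.smulRight_apply, innerSL_apply_apply, inner_e]

lemma W_apply (n : ℕ) (x : H2) : W n x = ∑ i ∈ Finset.range (n + 1), x (n - i) • e i := by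
  rw [W, _root_.sum_apply]
  refine Finset.sum_congr rfl fun i _ => ?_
  rw [ContinuousLinearMap.smulRight_apply, innerSL_apply_apply, inner_e]

lemma P_coord (n : ℕ) (x : H2) (j : ℕ) : (P n x) j = if j ≤ n then x j else 0 := by
  rw [P_apply, sum_coord]
  simp only [lp.coeFn_smul, Pi.smul_apply, e_apply, smul_eq_mul, mul_ite, mul_one, mul_zero]
  rw [Finset.sum_ite_eq]
  simp

lemma W_coord (n : ℕ) (x : H2) (j : ℕ) : (W n x) j = if j ≤ n then x (n - j) else 0 := by
  rw [W_apply, sum_coord]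
  simp only [lp.coeFn_smul, Pi.smul_apply, e_apply, smul_eq_mul, mul_ite, mul_one, mul_zero]
  rw [Finset.sum_ite_eq]
  simp

lemma mulA (S T : H2 →L[ℂ] H2) (x : H2) : (S * T) x = S (T x) := rfl

lemma hext {S T : H2 →L[ℂ] H2} (h : ∀ x j, (S x) j = (T x) j) : S = T := by
  ext x j
  exact h x j

lemma PP (n : ℕ) : P n * P n = P n := hext fun x j => by
  rw [mulA, P_coord, P_coord]
  split_ifs <;> rfl

lemma PW (n : ℕ) : P n * W n = W n := hext fun x j => by
  rw [mulA, P_coord, W_coord]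
  split_ifs <;> rfl

lemma WP (n : ℕ) : W n * P n = W n := hext fun x j => by
  rw [mulA, W_coord, P_coord, W_coord]
  split_ifs with h1 h2
  · rfl
  · omega
  · rfl

lemma WW (n : ℕ) : W n * W n = P n := hext fun x j => by
  rw [mulA, W_coord, W_coord, P_coord]
  split_ifs with h1 h2
  · have h3 : n - (n - j) = j := by omega
    rw [h3]
  · omega
  · rfl

lemma inner_P (n : ℕ) (x y : H2) : ⟪P n x, y⟫_ℂ = ⟪x, P n y⟫_ℂ := by
  rw [lp.inner_eq_tsum, lp.inner_eq_tsum]
  congr 1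
  funext j
  rw [P_coord, P_coord]
  split_ifs <;> simp

lemma inner_W (n : ℕ) (x y : H2) : ⟪W n x, y⟫_ℂ = ⟪x, W n y⟫_ℂ := by
  rw [lp.inner_eq_tsum, lp.inner_eq_tsum]
  have h1 : ∑' j, ⟪(W n x) j, y j⟫_ℂ = ∑ j ∈ Finset.range (n + 1), ⟪x (n - j), y j⟫_ℂ := by
    rw [tsum_eq_sum (s := Finset.range (n + 1))]
    · refine Finset.sum_congr rfl fun j hj => ?_
      rw [Finset.mem_range] at hj
      rw [W_coord, if_pos (by omega)]
    · intro j hj
      rw [Finset.mem_range] at hj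
      rw [W_coord, if_neg (by omega), inner_zero_left]
  have h2 : ∑' j, ⟪x j, (W n y) j⟫_ℂ = ∑ j ∈ Finset.range (n + 1), ⟪x j, y (n - j)⟫_ℂ := by
    rw [tsum_eq_sum (s := Finset.range (n + 1))]
    · refine Finset.sum_congr rfl fun j hj => ?_
      rw [Finset.mem_range] at hj
      rw [W_coord, if_pos (by omega)]
    · intro j hj
      rw [Finset.mem_range] at hj
      rw [W_coord, if_neg (by omega), inner_zero_right]
  rw [h1, h2, ← Finset.sum_range_reflect]
  refine Finset.sum_congr rfl fun j hj => ?_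
  rw [Finset.mem_range] at hj
  have e1 : n - (n + 1 - 1 - j) = j := by omega
  have e2 : n + 1 - 1 - j = n - j := by omega
  rw [e1, e2]

lemma norm_P (n : ℕ) (x : H2) : ‖P n x‖ ≤ ‖x‖ := by
  have h1 : ‖P n x‖ ^ 2 ≤ ‖x‖ * ‖P n x‖ := by
    rw [← inner_self_eq_norm_sq (𝕜 := ℂ), inner_P]
    have : P n (P n x) = P n x := congrArg (fun T : H2 →L[ℂ] H2 => T x) (PP n)
    rw [this]
    exact (RCLike.re_le_norm _).trans (norm_inner_le_norm _ _)
  by_contra h
  push Not at h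
  nlinarith [norm_nonneg x]

lemma norm_W (n : ℕ) (x : H2) : ‖W n x‖ ≤ ‖x‖ := by
  have h1 : ‖W n x‖ ^ 2 ≤ ‖x‖ ^ 2 := by
    rw [← inner_self_eq_norm_sq (𝕜 := ℂ), inner_W]
    have : W n (W n x) = P n x := congrArg (fun T : H2 →L[ℂ] H2 => T x) (WW n)
    rw [this]
    refine (RCLike.re_le_norm _).trans ((norm_inner_le_norm _ _).trans ?_)
    rw [sq]
    exact mul_le_mul_of_nonneg_left (norm_P n x) (norm_nonneg x)
  exact (pow_le_pow_iff_left₀ (norm_nonneg _) (norm_nonneg _) two_ne_zero).1 h1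

lemma L_coord (x : H2) (j : ℕ) : (L x) j = ∑' m : ℕ, fourierCoeff sy ((j : ℤ) - m) * x m := by
  rw [← inner_e, ← inner_Ls', lp.inner_eq_tsum]
  congr 1
  funext m
  rw [RCLike.inner_apply, Ls_apply', real_sy, mul_comm]

lemma PLsP (n : ℕ) : P n * Ls * P n = Ls * P n := hext fun x j => by
  rw [mulA, mulA, mulA, P_coord]
  split_ifs with h
  · rfl
  · rw [Ls_coord]
    symm
    convert tsum_zero with m
    rw [P_coord]
    split_ifs with h2
    · rw [fourierCoeff_sy, if_neg (by omega), zero_mul]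
    · rw [mul_zero]

lemma WLsW (n : ℕ) : W n * Ls * W n = P n * L * P n := hext fun x j => by
  rw [mulA, mulA, mulA, mulA, W_coord, P_coord]
  split_ifs with h
  · rw [Ls_coord, L_coord]
    rw [tsum_eq_sum (s := Finset.range (n + 1)), tsum_eq_sum (s := Finset.range (n + 1)),
      ← Finset.sum_range_reflect]
    · refine Finset.sum_congr rfl fun m hm => ?_
      rw [Finset.mem_range] at hm
      rw [W_coord, P_coord, if_pos (by omega), if_pos (by omega)]
      have e1 : ((n + 1 - 1 - m : ℕ) : ℤ) - ((n - j : ℕ) : ℤ) = (j : ℤ) - m := by omega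
      have e2 : n - (n + 1 - 1 - m) = m := by omega
      rw [e1, e2]
    · intro m hm
      rw [Finset.mem_range] at hm
      rw [P_coord, if_neg (by omega), mul_zero]
    · intro m hm
      rw [Finset.mem_range] at hm
      rw [W_coord, if_neg (by omega), mul_zero]
  · rfl

lemma WLW (n : ℕ) : W n * L * W n = P n * Ls * P n := by
  have h : W n * (P n * L * P n) * W n = P n * Ls * P n := by
    rw [← WLsW]
    calc _ = (W n * W n) * Ls * (W n * W n) := by simp only [mul_assoc]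
      _ = _ := by rw [WW]
  rw [← h]
  calc W n * L * W n = (W n * P n) * L * (P n * W n) := by rw [WP, PW]
    _ = _ := by simp only [mul_assoc]

/-- `P - PL P Ls P` -/
noncomputable def D (n : ℕ) : H2 →L[ℂ] H2 := P n - (P n * L * P n) * (P n * Ls * P n)

/-- `P - P Ls P L P` -/
noncomputable def E (n : ℕ) : H2 →L[ℂ] H2 := P n - (P n * Ls * P n) * (P n * L * P n)

lemma WDW (n : ℕ) : W n * D n * W n = E n := by
  have h1 : W n * (P n * L * P n) * W n = P n * Ls * P n := by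
    rw [← WLW]
    calc _ = (W n * P n) * L * (P n * W n) := by simp only [mul_assoc]
      _ = _ := by rw [WP, PW]
  have h2 : W n * (P n * Ls * P n) * W n = P n * L * P n := by
    rw [← WLsW]
    calc _ = (W n * P n) * Ls * (P n * W n) := by simp only [mul_assoc]
      _ = _ := by rw [WP, PW]
  have h3 : W n * ((P n * L * P n) * (P n * Ls * P n)) * W n
      = (W n * (P n * L * P n) * W n) * (W n * (P n * Ls * P n) * W n) := by
    calc W n * ((P n * L * P n) * (P n * Ls * P n)) * W n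
        = W n * (P n * L * (P n * P n)) * (P n * Ls * P n) * W n := by
          rw [PP]; simp only [mul_assoc]
      _ = W n * (P n * L * P n) * P n * (P n * Ls * P n) * W n := by simp only [mul_assoc]
      _ = W n * (P n * L * P n) * (W n * W n) * (P n * Ls * P n) * W n := by rw [WW]
      _ = _ := by simp only [mul_assoc]
  rw [D, E, mul_sub, sub_mul, h3, h1, h2, mul_assoc, PW, WW]

lemma PD (n : ℕ) : P n * D n = D n := by
  rw [D, mul_sub, PP]
  congr 1
  calc _ = (P n * P n) * L * P n * (P n * Ls * P n) := by simp only [mul_assoc]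
    _ = _ := by rw [PP]

lemma DP (n : ℕ) : D n * P n = D n := by
  rw [D, sub_mul, PP]
  congr 1
  calc _ = (P n * L * P n) * (P n * Ls * (P n * P n)) := by simp only [mul_assoc]
    _ = _ := by rw [PP]

lemma PE (n : ℕ) : P n * E n = E n := by
  rw [E, mul_sub, PP]
  congr 1
  calc _ = (P n * P n) * Ls * P n * (P n * L * P n) := by simp only [mul_assoc]
    _ = _ := by rw [PP]

lemma WEW (n : ℕ) : W n * E n * W n = D n := by
  rw [← WDW]
  calc _ = (W n * W n) * D n * (W n * W n) := by simp only [mul_assoc]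
    _ = _ := by rw [WW, PD, DP]

lemma inner_D (n : ℕ) (x y : H2) : ⟪D n x, y⟫_ℂ = ⟪x, D n y⟫_ℂ := by
  have h : ∀ x, D n x = P n x - P n (L (P n (P n (Ls (P n x))))) := fun x => rfl
  rw [h, h, inner_sub_left, inner_sub_right, inner_P, inner_P, ← inner_Ls, inner_P, inner_P,
    inner_Ls', inner_P]

/-- **Lower bound.** -/
lemma lower (n : ℕ) (k : H2) (hk : ‖k‖ = 1) (c : ℂ) (hc : Ls k = c • k) :
    ‖⟪W n k, k⟫_ℂ‖ - 2 * (‖c‖ + ‖k - P n k‖) - (‖c‖ + ‖k - P n k‖) ^ 2
      ≤ ‖D n (E n (W n k))‖ := by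
  set q := k - P n k with hq
  set u := -(P n (L (c • k - Ls q))) with hu
  have hD : D n (P n k) = P n k + u := by
    have h1 : D n (P n k) = P n (P n k) - P n (L (P n (P n (Ls (P n (P n k)))))) := rfl
    have h2 : P n (P n k) = P n k := congrArg (fun T : H2 →L[ℂ] H2 => T k) (PP n)
    have h3 : P n (Ls (P n k)) = Ls (P n k) := congrArg (fun T : H2 →L[ℂ] H2 => T k) (PLsP n)
    have h4 : Ls (P n k) = c • k - Ls q := by
      rw [hq, map_sub, hc]; abel
    rw [h1, h2, h3, h3, h4, hu]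
    abel
  have hun : ‖u‖ ≤ ‖c‖ + ‖q‖ := by
    rw [hu, norm_neg]
    refine (norm_P n _).trans ?_
    rw [norm_L]
    refine (norm_sub_le _ _).trans ?_
    rw [norm_smul, hk, mul_one]
    gcongr
    exact norm_Ls q
  have hPk : ‖P n k‖ ≤ 1 := by rw [← hk]; exact norm_P n k
  have key : ⟪D n (E n (W n k)), P n k⟫_ℂ = ⟪W n (P n k + u), P n k + u⟫_ℂ := by
    rw [inner_D, hD]
    congr 1
    have h1 : E n (W n k) = W n (D n (W n (W n k))) := by
      rw [← WDW]; rfl
    have h2 : W n (W n k) = P n k := congrArg (fun T : H2 →L[ℂ] H2 => T k) (WW n)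
    rw [h1, h2, hD]
  have h5 : ⟪W n (P n k + u), P n k + u⟫_ℂ
      = ⟪W n k, k⟫_ℂ + (⟪W n (P n k), u⟫_ℂ + ⟪W n u, P n k⟫_ℂ + ⟪W n u, u⟫_ℂ) := by
    have h6 : ⟪W n (P n k), P n k⟫_ℂ = ⟪W n k, k⟫_ℂ := by
      have h7 : W n (P n k) = W n k := congrArg (fun T : H2 →L[ℂ] H2 => T k) (WP n)
      rw [h7, ← inner_P]
      have h8 : P n (W n k) = W n k := congrArg (fun T : H2 →L[ℂ] H2 => T k) (PW n)
      rw [h8]
    rw [map_add, inner_add_left, inner_add_right, inner_add_right, h6]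
    ring
  have h9 : ‖⟪W n (P n k), u⟫_ℂ + ⟪W n u, P n k⟫_ℂ + ⟪W n u, u⟫_ℂ‖
      ≤ 2 * (‖c‖ + ‖q‖) + (‖c‖ + ‖q‖) ^ 2 := by
    have a1 : ‖⟪W n (P n k), u⟫_ℂ‖ ≤ 1 * (‖c‖ + ‖q‖) :=
      (norm_inner_le_norm _ _).trans (mul_le_mul ((norm_W n _).trans hPk) hun (norm_nonneg _)
        zero_le_one)
    have a2 : ‖⟪W n u, P n k⟫_ℂ‖ ≤ (‖c‖ + ‖q‖) * 1 :=
      (norm_inner_le_norm _ _).trans (mul_le_mul ((norm_W n _).trans hun) hPk (norm_nonneg _)
        (by positivity))
    have a3 : ‖⟪W n u, u⟫_ℂ‖ ≤ (‖c‖ + ‖q‖) * (‖c‖ + ‖q‖) :=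
      (norm_inner_le_norm _ _).trans (mul_le_mul ((norm_W n _).trans hun) hun (norm_nonneg _)
        (by positivity))
    have a4 := norm_add_le (⟪W n (P n k), u⟫_ℂ + ⟪W n u, P n k⟫_ℂ) ⟪W n u, u⟫_ℂ
    have a5 := norm_add_le ⟪W n (P n k), u⟫_ℂ ⟪W n u, P n k⟫_ℂ
    nlinarith
  have h10 : ‖⟪D n (E n (W n k)), P n k⟫_ℂ‖ ≤ ‖D n (E n (W n k))‖ := by
    refine (norm_inner_le_norm _ _).trans ?_
    exact mul_le_of_le_one_right (norm_nonneg _) hPk
  rw [key, h5] at h10
  have h11 := norm_sub_le (⟪W n k, k⟫_ℂ + (⟪W n (P n k), u⟫_ℂ + ⟪W n u, P n k⟫_ℂ + ⟪W n u, u⟫_ℂ))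
    (⟪W n (P n k), u⟫_ℂ + ⟪W n u, P n k⟫_ℂ + ⟪W n u, u⟫_ℂ)
  rw [add_sub_cancel_right] at h11
  linarith

end Pool.Agent.V8H59.FS
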