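import Mathlib

/-!
The singular inner function `th z = exp (-(1 + z) / (1 - z))`: boundary values and coefficients.
-/

set_option autoImplicit false
open MeasureTheory Filter Topology Complex AddCircle

namespace Pool.Agent.V8H59.FS

/-- the singular inner function -/
noncomputable def th (z : ℂ) : ℂ := exp (-((1 + z) / (1 - z)))

lemma norm_th (z : ℂ) : ‖th z‖ = Real.exp (-((1 + z) / (1 - z)).re) := by
  rw [th, norm_exp, neg_re]

lemma re_cay (z : ℂ) : ((1 + z) / (1 - z)).re = (1 - ‖z‖ ^ 2) / normSq (1 - z) := by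
  rw [div_re, ← add_div, ← normSq_eq_norm_sq, normSq_apply z]
  congr 1
  simp
  ring

lemma norm_th_le {z : ℂ} (hz : ‖z‖ ≤ 1) : ‖th z‖ ≤ 1 := by
  rw [norm_th, Real.exp_le_one_iff, neg_nonpos, re_cay]
  apply div_nonneg _ (normSq_nonneg _)
  nlinarith [norm_nonneg z]

lemma norm_th_circle {z : ℂ} (hz : ‖z‖ = 1) : ‖th z‖ = 1 := by
  rw [norm_th, re_cay, hz]
  simp

lemma th_conj (z : ℂ) : th ((starRingEnd ℂ) z) = (starRingEnd ℂ) (th z) := by
  rw [th, th, ← exp_conj]
  simp

lemma diff_th : DifferentiableOn ℂ th (Metric.ball 0 1) := by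
  intro z hz
  have h : (1 : ℂ) - z ≠ 0 := by
    intro h
    rw [sub_eq_zero] at h
    rw [← h] at hz
    simp at hz
  apply DifferentiableAt.differentiableWithinAt
  unfold th
  fun_prop (disch := exact h)

/-- Taylor coefficients -/
noncomputable def cc (m : ℕ) : ℂ := ((m.factorial : ℂ))⁻¹ * iteratedDeriv m th 0

lemma hasSum_cc {z : ℂ} (hz : ‖z‖ < 1) : HasSum (fun m => cc m * z ^ m) (th z) := by
  have h := hasSum_taylorSeries_on_ball diff_th (z := z) (by simpa using hz)
  refine h.congr_fun ?_ |> fun h => h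
  intro m
  simp only [sub_zero, smul_eq_mul, cc]
  ring

lemma summable_cc {r : ℝ} (h0 : 0 ≤ r) (h1 : r < 1) : Summable fun m => ‖cc m * (r : ℂ) ^ m‖ := by
  have h := hasSum_cc (z := (r : ℂ)) (by simpa [abs_of_nonneg h0] using h1)
  exact h.summable.norm

/-- unit circle -/
abbrev Ci : Type := AddCircle (1 : ℝ)

lemma norm_fourier (n : ℤ) (t : Ci) : ‖(fourier n t : ℂ)‖ = 1 := by
  rw [fourier_apply, Circle.norm_coe]

lemma fourier_pow (m : ℕ) (t : Ci) : (fourier (m : ℤ) t : ℂ) = (fourier 1 t : ℂ) ^ m := by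
  induction m with
  | zero => simp
  | succ m ih =>
    rw [pow_succ, ← ih, Nat.cast_succ, fourier_add]

lemma coeff_series (c : ℕ → ℂ) (hc : Summable fun m => ‖c m‖) (k : ℤ) :
    fourierCoeff (fun t : Ci => ∑' m : ℕ, c m * (fourier (m : ℤ) t : ℂ)) k
      = if 0 ≤ k then c k.toNat else 0 := by
  have hint : ∀ m : ℕ, Integrable (fun t : Ci => (fourier (-k) t : ℂ) • (c m * (fourier (m : ℤ) t : ℂ)))
      haarAddCircle := by
    intro m
    apply Integrable.fourier_smul
    apply Continuous.integrable_of_hasCompactSupport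
    · fun_prop
    · exact HasCompactSupport.of_compactSpace _
  have h1 := hasSum_integral_of_summable_integral_norm hint (by
    have : (fun m : ℕ => ∫ t : Ci, ‖(fourier (-k) t : ℂ) • (c m * (fourier (m : ℤ) t : ℂ))‖
        ∂haarAddCircle) = fun m => ‖c m‖ := by
      funext m
      have : (fun t : Ci => ‖(fourier (-k) t : ℂ) • (c m * (fourier (m : ℤ) t : ℂ))‖) =
          fun _ => ‖c m‖ := by
        funext t
        rw [norm_smul, norm_mul, norm_fourier, norm_fourier]
        ring
      rw [this]
      simp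
    rw [this]
    exact hc)
  have h2 : ∀ m : ℕ, ∫ t : Ci, (fourier (-k) t : ℂ) • (c m * (fourier (m : ℤ) t : ℂ))
      ∂haarAddCircle = if (m : ℤ) = k then c m else 0 := by
    intro m
    have h3 : ∫ t : Ci, (fourier (-k) t : ℂ) • (c m * (fourier (m : ℤ) t : ℂ)) ∂haarAddCircle
        = c m * fourierCoeff (fourier (m : ℤ) : Ci → ℂ) k := by
      rw [← fourierCoeff.const_mul]
      rfl
    rw [h3, fourierCoeff_fourier]
    by_cases h : (m : ℤ) = k
    · subst h; simp
    · rw [Pi.single_eq_of_ne (Ne.symm h), if_neg h, mul_zero]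
  simp_rw [h2] at h1
  have h4 : fourierCoeff (fun t : Ci => ∑' m : ℕ, c m * (fourier (m : ℤ) t : ℂ)) k
      = ∫ t : Ci, ∑' m : ℕ, (fourier (-k) t : ℂ) • (c m * (fourier (m : ℤ) t : ℂ))
        ∂haarAddCircle := by
    rw [fourierCoeff]
    congr 1
    funext t
    simp only [smul_eq_mul]
    rw [tsum_mul_left]
  rw [h4, ← h1.tsum_eq]
  split_ifs with hk
  · rw [tsum_eq_single k.toNat]
    · rw [if_pos (Int.toNat_of_nonneg hk)]
    · intro m hm
      rw [if_neg]
      intro h
      apply hm
      omega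
  · have : (fun m : ℕ => if (m : ℤ) = k then c m else 0) = fun _ => 0 := by
      funext m
      rw [if_neg]
      omega
    rw [this, tsum_zero]

/-- the symbol: boundary values -/
noncomputable def sy (t : Ci) : ℂ := th (fourier 1 t : ℂ)

lemma norm_sy (t : Ci) : ‖sy t‖ = 1 := norm_th_circle (norm_fourier 1 t)

lemma measurable_th : Measurable th := by
  unfold th
  fun_prop

lemma measurable_sy : Measurable sy :=
  measurable_th.comp (fourier 1 : C(Ci, ℂ)).continuous.measurable

lemma coeff_dil {r : ℝ} (h0 : 0 ≤ r) (h1 : r < 1) (k : ℤ) :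
    fourierCoeff (fun t : Ci => th (r * (fourier 1 t : ℂ))) k
      = if 0 ≤ k then cc k.toNat * (r : ℂ) ^ k.toNat else 0 := by
  rw [← coeff_series (fun m => cc m * (r : ℂ) ^ m) (summable_cc h0 h1) k]
  congr 1
  funext t
  have h := hasSum_cc (z := r * (fourier 1 t : ℂ)) (by
    rw [norm_mul, norm_fourier, norm_real, Real.norm_eq_abs, abs_of_nonneg h0, mul_one]
    exact h1)
  rw [← h.tsum_eq]
  congr 1
  funext m
  rw [fourier_pow, mul_pow]
  ring

/-- a sequence of radii -/
noncomputable def rr (n : ℕ) : ℝ := 1 - 1 / ((n : ℝ) + 1)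

lemma rr_nonneg (n : ℕ) : 0 ≤ rr n := by
  unfold rr
  have : 1 / ((n : ℝ) + 1) ≤ 1 := by
    rw [div_le_one (by positivity)]
    have := Nat.cast_nonneg (α := ℝ) n
    linarith
  linarith

lemma rr_lt (n : ℕ) : rr n < 1 := by
  unfold rr
  have : 0 < 1 / ((n : ℝ) + 1) := by positivity
  linarith

lemma rr_tendsto : Tendsto rr atTop (𝓝 1) := by
  have h := (tendsto_one_div_add_atTop_nhds_zero_nat (𝕜 := ℝ)).const_sub 1
  rw [sub_zero] at h
  exact h

lemma fourier_one_ne (t : Ci) (ht : t ≠ 0) : (fourier 1 t : ℂ) ≠ 1 := by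
  intro h
  apply ht
  have h2 : (fourier 1 t : ℂ) = (toCircle t : ℂ) := by rw [fourier_one]
  rw [h2] at h
  have h3 : toCircle t = 1 := by
    apply Subtype.ext
    simpa using h
  exact (injective_toCircle (T := (1:ℝ)) one_ne_zero) (by rw [h3, toCircle_zero])

lemma fourierCoeff_sy (k : ℤ) : fourierCoeff sy k = if 0 ≤ k then cc k.toNat else 0 := by
  have hae : ∀ᵐ t : Ci ∂haarAddCircle, t ≠ 0 := by
    have h0 : (volume : Measure Ci) {0} = 0 := by
      have := AddCircle.volume_closedBall (T := (1 : ℝ)) (x := (0 : Ci)) 0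
      rw [Metric.closedBall_zero] at this
      rw [this]
      simp
    have h1 : (haarAddCircle : Measure Ci) {0} = 0 := by
      rw [volume_eq_smul_haarAddCircle] at h0
      simpa using h0
    exact compl_mem_ae_iff.mpr h1
  have h1 : Tendsto (fun n => fourierCoeff (fun t : Ci => th (rr n * (fourier 1 t : ℂ))) k) atTop
      (𝓝 (fourierCoeff sy k)) := by
    unfold fourierCoeff
    apply tendsto_integral_of_dominated_convergence (fun _ => (1 : ℝ))
    · intro n
      apply Measurable.aestronglyMeasurable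
      refine Measurable.mul (f := fun t => (fourier (-k) t : ℂ)) ?_ ?_
      · exact (fourier (-k) : C(Ci, ℂ)).continuous.measurable
      · apply measurable_th.comp
        exact (continuous_const.mul (fourier 1 : C(Ci, ℂ)).continuous).measurable
    · exact integrable_const _
    · intro n
      filter_upwards with t
      rw [norm_smul, norm_fourier, one_mul]
      apply norm_th_le
      rw [norm_mul, norm_fourier, norm_real, Real.norm_eq_abs, abs_of_nonneg (rr_nonneg n), mul_one]
      exact (rr_lt n).le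
    · filter_upwards [hae] with t ht
      apply Tendsto.smul tendsto_const_nhds
      have h2 : ContinuousAt th (fourier 1 t : ℂ) := by
        have h3 : (1 : ℂ) - (fourier 1 t : ℂ) ≠ 0 := by
          intro h
          exact fourier_one_ne t ht (sub_eq_zero.1 h).symm
        unfold th
        fun_prop (disch := exact h3)
      apply h2.tendsto.comp
      have h4 : Tendsto (fun n => ((rr n : ℝ) : ℂ)) atTop (𝓝 1) := by
        have := (continuous_ofReal.tendsto 1).comp rr_tendsto
        rw [ofReal_one] at this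
        exact this
      simpa using h4.mul_const (fourier 1 t : ℂ)
  have h2 : Tendsto (fun n => fourierCoeff (fun t : Ci => th (rr n * (fourier 1 t : ℂ))) k) atTop
      (𝓝 (if 0 ≤ k then cc k.toNat else 0)) := by
    simp_rw [coeff_dil (rr_nonneg _) (rr_lt _) k]
    split_ifs with hk
    · have h4 : Tendsto (fun n => ((rr n : ℝ) : ℂ)) atTop (𝓝 1) := by
        have := (continuous_ofReal.tendsto 1).comp rr_tendsto
        rw [ofReal_one] at this
        exact this
      simpa using (h4.pow k.toNat).const_mul (cc k.toNat)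
    · exact tendsto_const_nhds
  exact tendsto_nhds_unique h1 h2

lemma sy_neg (t : Ci) : sy (-t) = (starRingEnd ℂ) (sy t) := by
  unfold sy
  rw [← th_conj, ← fourier_neg]
  congr 1
  rw [fourier_apply, fourier_apply]
  simp

lemma fourierCoeff_conj_sy (k : ℤ) :
    fourierCoeff (fun t : Ci => (starRingEnd ℂ) (sy t)) k = (starRingEnd ℂ) (fourierCoeff sy (-k)) := by
  rw [fourierCoeff, fourierCoeff, ← integral_conj]
  congr 1
  funext t
  simp only [smul_eq_mul, map_mul, neg_neg]
  rw [fourier_neg]

lemma cc_real (m : ℕ) : (starRingEnd ℂ) (cc m) = cc m := by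
  have h1 : fourierCoeff sy (m : ℤ) = cc m := by
    rw [fourierCoeff_sy]; simp
  rw [← h1, fourierCoeff, ← integral_conj]
  rw [← integral_neg_eq_self]
  congr 1
  funext t
  simp only [smul_eq_mul, map_mul]
  rw [sy_neg, conj_conj, ← fourier_neg]
  congr 1
  rw [fourier_apply, fourier_apply]
  simp

end Pool.Agent.V8H59.FS
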